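import Pool.Agent.Q133.MU.Schreier

/-!
# Consequences for the products of two cyclic groups
-/

set_option autoImplicit false

namespace Pool.Agent.Q133.MU

open Function Set

universe u

/-- the direct product of two cyclic groups of order `t` -/
abbrev CC (t : ℕ) : Type := Multiplicative (ZMod t × ZMod t)

/-- its two generators -/
def xx (t : ℕ) : Fin 2 → CC t :=
  ![Multiplicative.ofAdd ((1 : ZMod t), (0 : ZMod t)), Multiplicative.ofAdd ((0 : ZMod t), (1 : ZMod t))]

theorem xx_gen (t : ℕ) [NeZero t] : Subgroup.closure (Set.range (xx t)) = ⊤ := by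
  rw [eq_top_iff]
  rintro a -
  obtain ⟨⟨b, c⟩, rfl⟩ := Multiplicative.ofAdd.surjective a
  have h : (Multiplicative.ofAdd (b, c) : CC t) = xx t 0 ^ b.val * xx t 1 ^ c.val := by
    show Multiplicative.ofAdd (b, c) = Multiplicative.ofAdd ((1 : ZMod t), (0 : ZMod t)) ^ b.val *
      Multiplicative.ofAdd ((0 : ZMod t), (1 : ZMod t)) ^ c.val
    rw [← ofAdd_nsmul, ← ofAdd_nsmul, ← ofAdd_add]
    congr 1
    simp
  rw [h]
  exact mul_mem (pow_mem (Subgroup.subset_closure (Set.mem_range_self 0)) _)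
    (pow_mem (Subgroup.subset_closure (Set.mem_range_self 1)) _)

theorem cc_exp (t : ℕ) (a : CC t) : a ^ t = 1 := by
  obtain ⟨b, rfl⟩ := Multiplicative.ofAdd.surjective a
  rw [← ofAdd_nsmul]
  have : t • b = 0 := by
    ext <;> simp
  rw [this]
  rfl

theorem card_cc (t : ℕ) : Nat.card (CC t) = t ^ 2 := by
  have : Nat.card (CC t) = Nat.card (ZMod t × ZMod t) := Nat.card_congr Multiplicative.toAdd
  rw [this, Nat.card_prod, Nat.card_zmod, sq]

theorem fin_two {t n r : ℕ} (ht : 0 < t) (hr : r ≤ 1 + t ^ 2) (h : Finite (B 2 (t * n))) :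
    Finite (B r n) := by
  have : NeZero t := ⟨ht.ne'⟩
  exact finite_of (xx t) (xx_gen t) (cc_exp t) (by rw [card_cc]; omega) h

theorem solv_two {t n r : ℕ} (ht : 0 < t) (hr : r ≤ 1 + t ^ 2)
    (h : Group.IsSolvable (B 2 (t * n))) : Group.IsSolvable (B r n) := by
  have : NeZero t := ⟨ht.ne'⟩
  exact solvable_of (xx t) (xx_gen t) (cc_exp t) (by rw [card_cc]; omega) h

/-- finitely generated groups of exponent `n` are quotients of free Burnside groups -/
theorem finite_closure {n : ℕ} (h : ∀ m, Finite (B m n)) (G : Type u) [Group G]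
    (hG : ∀ x : G, x ^ n = 1) (S : Set G) (hS : S.Finite) : Finite (Subgroup.closure S) := by
  obtain ⟨m, f, hf⟩ : ∃ (m : ℕ) (f : Fin m → G), Set.range f = S := by
    have : Finite S := hS
    obtain ⟨m, ⟨e⟩⟩ := Finite.exists_equiv_fin S
    refine ⟨m, fun i => (e.symm i).1, ?_⟩
    ext x
    constructor
    · rintro ⟨i, rfl⟩
      exact (e.symm i).2
    · intro hx
      exact ⟨e ⟨x, hx⟩, by simp⟩
  have hker : Subgroup.normalClosure (Set.range fun w : FreeGroup (Fin m) => w ^ n) ≤
      (FreeGroup.lift f).ker := by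
    refine Subgroup.normalClosure_le_normal ?_
    rintro _ ⟨w, rfl⟩
    show FreeGroup.lift f (w ^ n) = 1
    rw [map_pow, hG]
  let φ : B m n →* G := QuotientGroup.lift _ (FreeGroup.lift f) hker
  have hfin := h m
  have hr : Subgroup.closure S ≤ φ.range := by
    rw [← hf, Subgroup.closure_le]
    rintro _ ⟨i, rfl⟩
    refine ⟨QuotientGroup.mk (FreeGroup.of i), ?_⟩
    show FreeGroup.lift f (FreeGroup.of i) = f i
    rw [FreeGroup.lift_apply_of]
  have h2 : Finite φ.range := Finite.of_surjective φ.rangeRestrict φ.rangeRestrict_surjective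
  exact Finite.Set.subset (φ.range : Set G) hr

end Pool.Agent.Q133.MU
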