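import Pool.Agent.Q133.MU.Orb

/-!
# Three involutions, two elements of order `t`, an involution and an element of order three
-/

set_option autoImplicit false

namespace Pool.Agent.Q133.MU

open Function Set

universe u

section gen

variable {m : ℕ} {T : Type*} [Group T]

theorem fin_orb [Finite T] {t n r : ℕ} {d : Fin m → ℕ} (x : Fin m → T)
    (hx : Subgroup.closure (Set.range x) = ⊤) (hT : ∀ a : T, a ^ t = 1) (hd : ∀ i, x i ^ d i = 1)
    (hr : r + Nat.card T + ∑ i, Nat.card T / orderOf (x i) ≤ 1 + m * Nat.card T) :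
    ∃ (K : Subgroup (PP m (t * n) d)) (φ : K →* B r n), Surjective φ :=
  section_orb x hx hT hd (by rw [card_om]; exact hr) (B_exp r n) _ (B_gen r n)

/-- A generator of order dividing `n` and further generators of a finite group `T`. -/
theorem section_free {G : Type*} [Group G] [Finite T] {t n r : ℕ} {d : Fin m → ℕ} (x : Fin m → T)
    (hx : Subgroup.closure (Set.range x) = ⊤) (hT : ∀ a : T, a ^ t = 1) (hd : ∀ i, x i ^ d i = 1)
    (i0 : Fin m) (h0 : x i0 = 1) (hn : n ∣ d i0) (hr : r ≤ Nat.card T) (hG : ∀ g : G, g ^ n = 1)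
    (f : Fin r → G) (hf : Subgroup.closure (Set.range f) = ⊤) :
    ∃ (K : Subgroup (PP m (t * n) d)) (φ : K →* G), Surjective φ := by
  classical
  obtain ⟨jj, hj⟩ : ∃ jj : Fin r → T, Injective jj := by
    have e : T ≃ Fin (Nat.card T) := Finite.equivFin T
    exact ⟨fun s => e.symm (Fin.castLE hr s), e.symm.injective.comp (Fin.castLE_injective hr)⟩
  let F : T → G := Function.extend jj f 1
  let c : Fin m → T → G := fun i a => if i = i0 then F a else 1
  have hpow : ∀ (i : Fin m) (k : ℕ) (a : T) (g : G), i ≠ i0 →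
      sg x c (FreeGroup.of i ^ k) (a, g) = (x i ^ k * a, g) := by
    intro i k a g hi
    induction k with
    | zero => simp
    | succ k ih =>
      rw [pow_succ', map_mul, Equiv.Perm.mul_apply, ih, sg_of]
      refine Prod.ext ?_ ?_
      · simp [pow_succ', mul_assoc]
      · simp [c, hi]
  have hpow0 : ∀ (k : ℕ) (a : T) (g : G), sg x c (FreeGroup.of i0 ^ k) (a, g) = (a, F a ^ k * g) := by
    intro k a g
    induction k with
    | zero => simp
    | succ k ih =>
      rw [pow_succ', map_mul, Equiv.Perm.mul_apply, ih, sg_of, h0]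
      refine Prod.ext ?_ ?_
      · simp
      · simp [c, pow_succ', mul_assoc]
  refine section_mono x c hT hG hd (fun i => ?_) ?_
  · ext1 p
    obtain ⟨a, g⟩ := p
    by_cases hi : i = i0
    · subst hi
      obtain ⟨l, hl⟩ := hn
      rw [hpow0, hl, pow_mul, hG, one_pow, one_mul]
      rfl
    · rw [hpow i _ a g hi, hd, one_mul]
      rfl
  · have hreach : ∀ a ∈ Subgroup.closure (Set.range x), ∃ w : FreeGroup (Fin m), ∀ (b : T) (g : G),
        sg x c w (b, g) = (a * b, g) := by
      intro a ha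
      induction ha using Subgroup.closure_induction with
      | mem a ha =>
        obtain ⟨i, rfl⟩ := ha
        by_cases hi : i = i0
        · subst hi
          exact ⟨1, fun b g => by rw [h0]; simp⟩
        · refine ⟨FreeGroup.of i, fun b g => ?_⟩
          have := hpow i 1 b g hi
          rwa [pow_one, pow_one] at this
      | one => exact ⟨1, fun b g => by simp⟩
      | mul a a' _ _ h h' =>
        obtain ⟨w, hw⟩ := h
        obtain ⟨w', hw'⟩ := h'
        refine ⟨w * w', fun b g => ?_⟩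
        rw [map_mul, Equiv.Perm.mul_apply, hw', hw, mul_assoc]
      | inv a _ h =>
        obtain ⟨w, hw⟩ := h
        refine ⟨w⁻¹, fun b g => ?_⟩
        rw [map_inv, Equiv.Perm.inv_eq_iff_eq, hw, mul_inv_cancel_left]
    have hrange : ∀ s : Fin r, f s ∈ (phi (mono_sg x c)).range := by
      intro s
      obtain ⟨w, hw⟩ := hreach (jj s) (by rw [hx]; exact Subgroup.mem_top _)
      have hF : F (jj s) = f s := hj.extend_apply f 1 s
      have h7 : sg x c (w⁻¹ * (FreeGroup.of i0 ^ 1 * w)) (1, 1) = (1, f s) := by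
        rw [map_mul, Equiv.Perm.mul_apply, map_inv, Equiv.Perm.inv_eq_iff_eq, hw, map_mul,
          Equiv.Perm.mul_apply, hw, hpow0, mul_one, hF, pow_one, mul_one]
      have hk' : w⁻¹ * (FreeGroup.of i0 ^ 1 * w) ∈ (FreeGroup.lift x).ker := by
        rw [MonoidHom.mem_ker]
        have h8 := (mono_sg x c).fst (w⁻¹ * (FreeGroup.of i0 ^ 1 * w)) 1 1
        rw [h7, mul_one] at h8
        exact h8.symm
      exact ⟨⟨_, hk'⟩, by
        show (sg x c (w⁻¹ * (FreeGroup.of i0 ^ 1 * w)) (1, 1)).2 = f s; rw [h7]⟩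
    rw [← MonoidHom.range_eq_top, ← top_le_iff, ← hf, Subgroup.closure_le]
    rintro _ ⟨s, rfl⟩
    exact hrange s

end gen

/-! ### three involutions -/

/-- the elementary abelian group of order eight -/
abbrev C2 : Type := Multiplicative (ZMod 2 × ZMod 2 × ZMod 2)

/-- its generators -/
def xx2 : Fin 3 → C2 :=
  ![Multiplicative.ofAdd (1, 0, 0), Multiplicative.ofAdd (0, 1, 0), Multiplicative.ofAdd (0, 0, 1)]

theorem xx2_gen : Subgroup.closure (Set.range xx2) = ⊤ := by
  rw [eq_top_iff]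
  rintro a -
  have h : ∀ a : C2, ∃ i j k : Fin 2, a = xx2 0 ^ (i : ℕ) * xx2 1 ^ (j : ℕ) * xx2 2 ^ (k : ℕ) := by
    decide +kernel
  obtain ⟨i, j, k, rfl⟩ := h a
  have hs : ∀ i, xx2 i ∈ Subgroup.closure (Set.range xx2) := fun i =>
    Subgroup.subset_closure (Set.mem_range_self i)
  exact mul_mem (mul_mem (pow_mem (hs 0) _) (pow_mem (hs 1) _)) (pow_mem (hs 2) _)

theorem c2_exp : ∀ a : C2, a ^ 2 = 1 := by decide +kernel

theorem order_xx2 (i : Fin 3) : orderOf (xx2 i) = 2 := by
  refine orderOf_eq_prime (c2_exp _) ?_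
  revert i
  decide +kernel

theorem card_c2 : Nat.card C2 = 8 := by
  rw [Nat.card_eq_fintype_card]
  decide +kernel

theorem three_inv {n r : ℕ} (hr : r ≤ 5) :
    ∃ (K : Subgroup (PP 3 (2 * n) fun _ => 2)) (φ : K →* B r n), Surjective φ := by
  refine fin_orb xx2 xx2_gen c2_exp (fun i => c2_exp _) ?_
  simp only [order_xx2, card_c2, Finset.sum_const, Finset.card_univ, Fintype.card_fin]
  norm_num
  omega

/-! ### two elements of order `t` -/

theorem order_xx (t : ℕ) [NeZero t] (i : Fin 2) : orderOf (xx t i) = t := by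
  refine Nat.dvd_antisymm (orderOf_dvd_of_pow_eq_one (cc_exp t _)) ?_
  have h : xx t i ^ orderOf (xx t i) = 1 := pow_orderOf_eq_one _
  fin_cases i
  · change (Multiplicative.ofAdd ((1 : ZMod t), (0 : ZMod t))) ^ _ = 1 at h
    rw [← ofAdd_nsmul, ← ofAdd_zero, Multiplicative.ofAdd.injective.eq_iff] at h
    have h2 := congrArg Prod.fst h
    simp only [Prod.smul_mk, Prod.fst_zero, nsmul_eq_mul, mul_one] at h2
    exact (ZMod.natCast_eq_zero_iff _ _).1 h2
  · change (Multiplicative.ofAdd ((0 : ZMod t), (1 : ZMod t))) ^ _ = 1 at h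
    rw [← ofAdd_nsmul, ← ofAdd_zero, Multiplicative.ofAdd.injective.eq_iff] at h
    have h2 := congrArg Prod.snd h
    simp only [Prod.smul_mk, Prod.snd_zero, nsmul_eq_mul, mul_one] at h2
    exact (ZMod.natCast_eq_zero_iff _ _).1 h2

theorem two_t {t n r : ℕ} (ht : 2 ≤ t) (hr : r ≤ (t - 1) ^ 2) :
    ∃ (K : Subgroup (PP 2 (t * n) fun _ => t)) (φ : K →* B r n), Surjective φ := by
  have : NeZero t := ⟨by omega⟩
  refine fin_orb (xx t) (xx_gen t) (cc_exp t) (fun i => cc_exp t _) ?_
  simp only [order_xx, card_cc, Finset.sum_const, Finset.card_univ, Fintype.card_fin]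
  obtain ⟨s, rfl⟩ : ∃ s, t = s + 1 := ⟨t - 1, by omega⟩
  have h1 : (s + 1) ^ 2 / (s + 1) = s + 1 := by
    rw [sq, Nat.mul_div_cancel _ (by omega)]
  rw [h1, smul_eq_mul]
  simp only [Nat.add_sub_cancel] at hr
  nlinarith

/-! ### an involution and an element of order three -/

/-- the alternating group of degree four -/
abbrev A4 : Type := alternatingGroup (Fin 4)

/-- its generators -/
def xa : Fin 2 → A4 :=
  ![⟨Equiv.swap 0 1 * Equiv.swap 2 3, by rw [Equiv.Perm.mem_alternatingGroup]; decide⟩,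
    ⟨Equiv.swap 0 1 * Equiv.swap 1 2, by rw [Equiv.Perm.mem_alternatingGroup]; decide⟩]

theorem xa_gen : Subgroup.closure (Set.range xa) = ⊤ := by
  rw [eq_top_iff]
  rintro a -
  have h : ∀ a : A4, ∃ (i : Fin 2) (j k l : Fin 3),
      a = xa 1 ^ (j : ℕ) * xa 0 ^ (i : ℕ) * xa 1 ^ (k : ℕ) := by
    decide +kernel
  obtain ⟨i, j, k, -, rfl⟩ := h a
  have hs : ∀ i, xa i ∈ Subgroup.closure (Set.range xa) := fun i =>
    Subgroup.subset_closure (Set.mem_range_self i)
  exact mul_mem (mul_mem (pow_mem (hs 1) _) (pow_mem (hs 0) _)) (pow_mem (hs 1) _)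

theorem a4_exp : ∀ a : A4, a ^ 6 = 1 := by decide +kernel

theorem xa0 : orderOf (xa 0) = 2 := orderOf_eq_prime (by decide +kernel) (by decide +kernel)

theorem xa1 : orderOf (xa 1) = 3 := orderOf_eq_prime (by decide +kernel) (by decide +kernel)

theorem card_a4 : Nat.card A4 = 12 := by
  rw [Nat.card_eq_fintype_card]
  decide +kernel

theorem two_three {n r : ℕ} (hr : r ≤ 3) :
    ∃ (K : Subgroup (PP 2 (6 * n) ![2, 3])) (φ : K →* B r n), Surjective φ := by
  refine fin_orb xa xa_gen a4_exp ?_ ?_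
  · intro i
    fin_cases i
    · show xa 0 ^ 2 = 1
      decide +kernel
    · show xa 1 ^ 3 = 1
      decide +kernel
  · rw [Fin.sum_univ_two, xa0, xa1, card_a4]
    omega

end Pool.Agent.Q133.MU
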