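import Pool.Agent.Q133.MU.Cyc

/-!
# Groups of exponent `t n` generated by elements of prescribed orders

`B r n` is a quotient of a subgroup of the largest group of exponent dividing `t n` generated by
elements `x_i` with `x_i ^ (d i) = 1`, if `r ≤ 1 + (m - 1) |T| - ∑ |T| / |y_i|` for some finite group
`T` of exponent dividing `t` generated by `m` elements `y_i` with `y_i ^ (d i) = 1`.
-/

set_option autoImplicit false

namespace Pool.Agent.Q133.MU

open Function Set

universe u

section orb

variable {m : ℕ} {T : Type*} [Group T] {G : Type*} [Group G]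

/-- labels whose products along the orbits of the generators are trivial -/
def cc (x : Fin m → T) (lam : Fin m → T → G) (i : Fin m) (a : T) : G :=
  (lam i (x i * a))⁻¹ * lam i a

theorem sg_pow (x : Fin m → T) (lam : Fin m → T → G) (i : Fin m) (k : ℕ) (a : T) (g : G) :
    sg x (cc x lam) (FreeGroup.of i ^ k) (a, g) =
      (x i ^ k * a, (lam i (x i ^ k * a))⁻¹ * lam i a * g) := by
  induction k with
  | zero => simp
  | succ k ih =>
    rw [pow_succ', map_mul, Equiv.Perm.mul_apply, ih, sg_of]
    refine Prod.ext ?_ ?_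
    · simp [pow_succ', mul_assoc]
    · simp [cc, pow_succ', mul_assoc]

/-- the orbits of the generators -/
abbrev Om (x : Fin m → T) : Type _ :=
  Σ i : Fin m, Quotient (QuotientGroup.rightRel (Subgroup.zpowers (x i)))

/-- the orbit of an edge -/
def om (x : Fin m → T) (e : Fin m × T) : Om x := ⟨e.1, Quotient.mk'' e.2⟩

theorem om_pow (x : Fin m → T) (i : Fin m) (a : T) (k : ℕ) : om x (i, x i ^ k * a) = om x (i, a) := by
  unfold om
  refine Sigma.ext rfl (heq_of_eq ?_)
  refine Quotient.eq''.2 ?_
  rw [QuotientGroup.rightRel_apply]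
  have : a * (x i ^ k * a)⁻¹ = (x i ^ k)⁻¹ := by group
  rw [this]
  exact inv_mem (pow_mem (Subgroup.mem_zpowers _) _)

theorem om_eq [Finite T] (x : Fin m → T) {e f : Fin m × T} (h : om x e = om x f) :
    e.1 = f.1 ∧ ∃ k : ℕ, x e.1 ^ k * e.2 = f.2 := by
  obtain ⟨i, a⟩ := e
  obtain ⟨j, b⟩ := f
  unfold om at h
  rw [Sigma.mk.injEq] at h
  obtain ⟨h1, h2⟩ := h
  dsimp only at h1 h2 ⊢
  subst h1
  refine ⟨rfl, ?_⟩
  have h3 := Quotient.eq''.1 (eq_of_heq h2)
  rw [QuotientGroup.rightRel_apply] at h3
  obtain ⟨k, hk⟩ := (mem_powers_iff_mem_zpowers).2 h3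
  refine ⟨k, ?_⟩
  change x i ^ k = b * a⁻¹ at hk
  rw [hk, inv_mul_cancel_right]

/-- spanning trees of the graph of the elements of `T` and the orbits of the generators -/
theorem exists_otree [Finite T] (x : Fin m → T) (hx : Subgroup.closure (Set.range x) = ⊤) (k : ℕ)
    (hk : k + 1 ≤ Nat.card T) : ∃ (A : Set T) (E : Set (Fin m × T)) (U : Set (Om x)),
      A.ncard = k + 1 ∧ E.ncard = k + U.ncard ∧ 1 ∈ A ∧ (∀ e ∈ E, e.2 ∈ A ∧ om x e ∈ U) ∧
      (∀ u ∈ U, ∃ e ∈ E, om x e = u) ∧
      ∀ lam : Fin m → T → G, (∀ e ∈ E, lam e.1 e.2 = 1) → ∀ a ∈ A, ∃ w : FreeGroup (Fin m),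
        sg x (cc x lam) w (1, 1) = (a, 1) := by
  induction k with
  | zero =>
    refine ⟨{1}, ∅, ∅, by simp, by simp, rfl, by simp, by simp, ?_⟩
    intro c _ a ha
    rw [mem_singleton_iff] at ha
    exact ⟨1, by rw [ha]; simp⟩
  | succ k ih =>
    obtain ⟨A, E, U, hA, hE, h1, hEA, hUE, hc⟩ := ih (by omega)
    have hex : ∃ (i : Fin m) (a : T), a ∈ A ∧ x i * a ∉ A := by
      by_contra hcon
      push Not at hcon
      have hall : ∀ g ∈ Subgroup.closure (Set.range x), ∀ a ∈ A, g * a ∈ A := by
        intro g hg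
        induction hg using Subgroup.closure_induction with
        | mem g hg =>
          obtain ⟨i, rfl⟩ := hg
          exact hcon i
        | one => intro a ha; rwa [one_mul]
        | mul g g' _ _ h h' => intro a ha; rw [mul_assoc]; exact h _ (h' _ ha)
        | inv g _ h =>
          intro a ha
          have hpow : ∀ j : ℕ, ∀ a ∈ A, g ^ j * a ∈ A := by
            intro j
            induction j with
            | zero => intro a ha; simpa using ha
            | succ j ih => intro a ha; rw [pow_succ, mul_assoc]; exact ih _ (h _ ha)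
          have he : g⁻¹ = g ^ (orderOf g - 1) := by
            have hpos : 0 < orderOf g := orderOf_pos g
            rw [inv_eq_iff_mul_eq_one, ← pow_succ', Nat.sub_add_cancel hpos, pow_orderOf_eq_one]
          rw [he]
          exact hpow _ a ha
      have hAu : A = univ := by
        ext a
        refine ⟨fun _ => mem_univ _, fun _ => ?_⟩
        have := hall a (by rw [hx]; exact Subgroup.mem_top _) 1 h1
        rwa [mul_one] at this
      rw [hAu, Set.ncard_univ] at hA
      omega
    obtain ⟨i, a, ha, hia⟩ := hex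
    have hnE : (i, x i * a) ∉ E := fun h => hia (hEA _ h).1
    have hom1 : om x (i, x i * a) = om x (i, a) := by
      have := om_pow x i a 1
      rwa [pow_one] at this
    by_cases hU : om x (i, a) ∈ U
    · obtain ⟨e, he, heu⟩ := hUE _ hU
      refine ⟨insert (x i * a) A, insert (i, x i * a) E, U, ?_, ?_, mem_insert_of_mem _ h1, ?_, ?_,
        ?_⟩
      · rw [Set.ncard_insert_of_notMem hia (Set.toFinite _), hA]
      · rw [Set.ncard_insert_of_notMem hnE (Set.toFinite _), hE]
        omega
      · rintro f (rfl | hf)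
        · exact ⟨mem_insert _ _, by rw [hom1]; exact hU⟩
        · exact ⟨mem_insert_of_mem _ (hEA f hf).1, (hEA f hf).2⟩
      · intro u hu
        obtain ⟨f, hf, hfu⟩ := hUE u hu
        exact ⟨f, mem_insert_of_mem _ hf, hfu⟩
      · intro lam h b hb
        rcases hb with rfl | hb
        · obtain ⟨w, hw⟩ := hc lam (fun f hf => h f (mem_insert_of_mem _ hf)) e.2 (hEA e he).1
          have h2 : om x e = om x (i, x i * a) := by rw [heu, hom1]
          obtain ⟨h3, l, hl⟩ := om_eq x h2
          refine ⟨FreeGroup.of i ^ l * w, ?_⟩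
          rw [map_mul, Equiv.Perm.mul_apply, hw, sg_pow]
          have h4 : e.1 = i := h3
          rw [h4] at hl
          dsimp only at hl
          rw [hl]
          have h5 := h e (mem_insert_of_mem _ he)
          rw [h4] at h5
          have h6 : lam i (x i * a) = 1 := h (i, x i * a) (mem_insert _ _)
          rw [h5, h6]
          simp
        · exact hc lam (fun f hf => h f (mem_insert_of_mem _ hf)) b hb
    · have hnE2 : (i, a) ∉ E := fun h => hU (hEA _ h).2
      have hne : (i, x i * a) ≠ (i, a) := by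
        intro h
        rw [Prod.mk.injEq] at h
        apply hia
        rw [h.2]
        exact ha
      refine ⟨insert (x i * a) A, insert (i, x i * a) (insert (i, a) E), insert (om x (i, a)) U, ?_,
        ?_, mem_insert_of_mem _ h1, ?_, ?_, ?_⟩
      · rw [Set.ncard_insert_of_notMem hia (Set.toFinite _), hA]
      · rw [Set.ncard_insert_of_notMem _ (Set.toFinite _),
          Set.ncard_insert_of_notMem hnE2 (Set.toFinite _), hE,
          Set.ncard_insert_of_notMem hU (Set.toFinite _)]
        · omega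
        · rintro (h | h)
          · exact hne h
          · exact hnE h
      · rintro f (rfl | rfl | hf)
        · exact ⟨mem_insert _ _, by rw [hom1]; exact mem_insert _ _⟩
        · exact ⟨mem_insert_of_mem _ ha, mem_insert _ _⟩
        · exact ⟨mem_insert_of_mem _ (hEA f hf).1, mem_insert_of_mem _ (hEA f hf).2⟩
      · rintro u (rfl | hu)
        · exact ⟨(i, a), mem_insert_of_mem _ (mem_insert _ _), rfl⟩
        · obtain ⟨f, hf, hfu⟩ := hUE u hu
          exact ⟨f, mem_insert_of_mem _ (mem_insert_of_mem _ hf), hfu⟩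
      · intro lam h b hb
        have hsub : ∀ f ∈ E, lam f.1 f.2 = 1 := fun f hf =>
          h f (mem_insert_of_mem _ (mem_insert_of_mem _ hf))
        rcases hb with rfl | hb
        · obtain ⟨w, hw⟩ := hc lam hsub a ha
          refine ⟨FreeGroup.of i ^ 1 * w, ?_⟩
          rw [map_mul, Equiv.Perm.mul_apply, hw, sg_pow, pow_one]
          have h5 : lam i a = 1 := h (i, a) (mem_insert_of_mem _ (mem_insert _ _))
          have h6 : lam i (x i * a) = 1 := h (i, x i * a) (mem_insert _ _)
          rw [h5, h6]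
          simp
        · exact hc lam hsub b hb

/-- the monomial actions with trivial products along the orbits -/
theorem exists_omono [Finite T] (x : Fin m → T) (hx : Subgroup.closure (Set.range x) = ⊤) {r : ℕ}
    (hr : r + Nat.card T + Nat.card (Om x) ≤ 1 + m * Nat.card T) (f : Fin r → G)
    (hf : Subgroup.closure (Set.range f) = ⊤) :
    ∃ lam : Fin m → T → G, Surjective (phi (mono_sg x (cc x lam))) := by
  classical
  have hpos : 0 < Nat.card T := Nat.card_pos
  have hfinO : Finite (Om x) := inferInstance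
  obtain ⟨A, E, U, hA, hE, h1, hEA, hUE, hc⟩ := exists_otree (G := G) x hx (Nat.card T - 1) (by omega)
  have hAu : A = univ := by
    refine Set.eq_of_subset_of_ncard_le (subset_univ _) ?_ (Set.toFinite _)
    rw [Set.ncard_univ, hA]
    omega
  have hrep : ∀ u : Om x, ∃ e : Fin m × T, om x e = u := by
    rintro ⟨i, q⟩
    induction q using Quotient.inductionOn' with
    | h a => exact ⟨(i, a), rfl⟩
  choose rep hrep using hrep
  let F : Set (Fin m × T) := E ∪ rep '' Uᶜ
  have hF : F.ncard + 1 ≤ Nat.card T + Nat.card (Om x) := by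
    have h2 : F.ncard ≤ E.ncard + (rep '' Uᶜ).ncard := Set.ncard_union_le _ _
    have h3 : (rep '' Uᶜ).ncard ≤ (Uᶜ).ncard := Set.ncard_image_le (Set.toFinite _)
    have h4 := Set.ncard_add_ncard_compl U
    omega
  have hFu : ∀ u : Om x, ∃ e ∈ F, om x e = u := by
    intro u
    by_cases hu : u ∈ U
    · obtain ⟨e, he, heu⟩ := hUE u hu
      exact ⟨e, Or.inl he, heu⟩
    · exact ⟨rep u, Or.inr ⟨u, hu, rfl⟩, hrep u⟩
  have hcard : r ≤ (Fᶜ : Set (Fin m × T)).ncard := by
    have h2 := Set.ncard_add_ncard_compl F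
    rw [Nat.card_prod, Nat.card_fin] at h2
    omega
  obtain ⟨S, hS, hSr⟩ := Set.exists_subset_card_eq hcard
  have hSf : Finite S := Set.toFinite _
  have hcS : Nat.card S = r := by rw [Nat.card_coe_set_eq]; exact hSr
  let j : Fin r ≃ S := (Finite.equivFinOfCardEq hcS).symm
  let jj : Fin r → Fin m × T := fun s => (j s).1
  have hj : Injective jj := fun s s' h => j.injective (Subtype.ext h)
  let lam : Fin m → T → G := fun i a => Function.extend jj f 1 (i, a)
  have hlF : ∀ e ∈ F, lam e.1 e.2 = 1 := by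
    intro e he
    show Function.extend jj f 1 (e.1, e.2) = 1
    rw [Function.extend_apply']
    · rfl
    · rintro ⟨s, hs⟩
      have := hS (j s).2
      apply this
      have h3 : (j s).1 = e := hs
      rw [h3]
      exact he
  refine ⟨lam, ?_⟩
  have hreach : ∀ a : T, ∃ w : FreeGroup (Fin m), sg x (cc x lam) w (1, 1) = (a, 1) := fun a =>
    hc lam (fun e he => hlF e (Or.inl he)) a (by rw [hAu]; exact mem_univ _)
  have hrange : ∀ s : Fin r, f s ∈ (phi (mono_sg x (cc x lam))).range := by
    intro s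
    rcases hia : jj s with ⟨i, a⟩
    have hla : lam i a = f s := by
      show Function.extend jj f 1 (i, a) = f s
      rw [← hia, hj.extend_apply]
    obtain ⟨e, he, heu⟩ := hFu (om x (i, a))
    obtain ⟨h3, k, hk⟩ := om_eq x heu.symm
    dsimp only at h3 hk
    subst h3
    have hle : lam e.1 e.2 = 1 := hlF e he
    obtain ⟨v, hv⟩ := hreach a
    obtain ⟨w, hw⟩ := hreach e.2
    have hw' : sg x (cc x lam) w (1, f s) = (e.2, f s) := by
      have h4 := mono_sg x (cc x lam) w 1 (f s)
      rw [h4]
      have h5 := mono_sg x (cc x lam) w 1 1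
      rw [hw] at h5
      have h6 : (FreeGroup.lift x) w * 1 = e.2 := (congrArg Prod.fst h5).symm
      rw [h6, hw]
      simp
    have h7 : sg x (cc x lam) (w⁻¹ * (FreeGroup.of e.1 ^ k * v)) (1, 1) = (1, f s) := by
      rw [map_mul, Equiv.Perm.mul_apply, map_inv, Equiv.Perm.inv_eq_iff_eq, hw', map_mul,
        Equiv.Perm.mul_apply, hv, sg_pow, hk, hle, hla]
      simp
    have hk' : w⁻¹ * (FreeGroup.of e.1 ^ k * v) ∈ (FreeGroup.lift x).ker := by
      rw [MonoidHom.mem_ker]
      have h8 := (mono_sg x (cc x lam)).fst (w⁻¹ * (FreeGroup.of e.1 ^ k * v)) 1 1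
      rw [h7, mul_one] at h8
      exact h8.symm
    exact ⟨⟨_, hk'⟩, by
      show (sg x (cc x lam) (w⁻¹ * (FreeGroup.of e.1 ^ k * v)) (1, 1)).2 = f s; rw [h7]⟩
  rw [← MonoidHom.range_eq_top, ← top_le_iff, ← hf, Subgroup.closure_le]
  rintro _ ⟨s, rfl⟩
  exact hrange s

/-- the relators -/
def rel (m n : ℕ) (d : Fin m → ℕ) : Set (FreeGroup (Fin m)) :=
  (Set.range fun w : FreeGroup (Fin m) => w ^ n) ∪ Set.range fun i : Fin m => FreeGroup.of i ^ d i

/-- the largest group of exponent dividing `n` generated by `m` elements `x_i` with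
`x_i ^ (d i) = 1` -/
abbrev PP (m n : ℕ) (d : Fin m → ℕ) : Type :=
  FreeGroup (Fin m) ⧸ Subgroup.normalClosure
    ((Set.range fun w : FreeGroup (Fin m) => w ^ n) ∪
      Set.range fun i : Fin m => FreeGroup.of i ^ d i)

/-- a monomial action which satisfies the relations gives a section -/
theorem section_mono {t n : ℕ} {d : Fin m → ℕ} (x : Fin m → T) (c : Fin m → T → G)
    (hT : ∀ a : T, a ^ t = 1) (hG : ∀ g : G, g ^ n = 1) (hd : ∀ i, x i ^ d i = 1)
    (hc : ∀ i, sg x c (FreeGroup.of i ^ d i) = 1) (hs : Surjective (phi (mono_sg x c))) :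
    ∃ (K : Subgroup (PP m (t * n) d)) (φ : K →* G), Surjective φ := by
  have hm := mono_sg x c
  have hker1 : Subgroup.normalClosure ((Set.range fun w : FreeGroup (Fin m) => w ^ (t * n)) ∪
      Set.range fun i : Fin m => FreeGroup.of i ^ d i) ≤ (sg x c).ker := by
    refine Subgroup.normalClosure_le_normal ?_
    rintro _ (⟨w, rfl⟩ | ⟨i, rfl⟩)
    · exact hm.pow hT hG w
    · exact hc i
  have hker2 : Subgroup.normalClosure ((Set.range fun w : FreeGroup (Fin m) => w ^ (t * n)) ∪
      Set.range fun i : Fin m => FreeGroup.of i ^ d i) ≤ (FreeGroup.lift x).ker := by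
    refine Subgroup.normalClosure_le_normal ?_
    rintro _ (⟨w, rfl⟩ | ⟨i, rfl⟩)
    · show FreeGroup.lift x (w ^ (t * n)) = 1
      rw [map_pow, pow_mul, hT, one_pow]
    · show FreeGroup.lift x (FreeGroup.of i ^ d i) = 1
      rw [map_pow, FreeGroup.lift_apply_of, hd]
  let σ : PP m (t * n) d →* Equiv.Perm (T × G) := QuotientGroup.lift _ (sg x c) hker1
  let π : PP m (t * n) d →* T := QuotientGroup.lift _ (FreeGroup.lift x) hker2
  have hmo : Mono π σ := by
    intro w a g
    obtain ⟨w, rfl⟩ := QuotientGroup.mk_surjective w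
    exact hm w a g
  refine ⟨π.ker, phi hmo, fun g => ?_⟩
  obtain ⟨w, hw⟩ := hs g
  exact ⟨⟨QuotientGroup.mk w.1, w.2⟩, hw⟩

/-- **Sections.** -/
theorem section_orb [Finite T] {t n r : ℕ} {d : Fin m → ℕ} (x : Fin m → T)
    (hx : Subgroup.closure (Set.range x) = ⊤) (hT : ∀ a : T, a ^ t = 1) (hd : ∀ i, x i ^ d i = 1)
    (hr : r + Nat.card T + Nat.card (Om x) ≤ 1 + m * Nat.card T) (hG : ∀ g : G, g ^ n = 1)
    (f : Fin r → G) (hf : Subgroup.closure (Set.range f) = ⊤) :
    ∃ (K : Subgroup (PP m (t * n) d)) (φ : K →* G), Surjective φ := by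
  obtain ⟨lam, hs⟩ := exists_omono x hx hr f hf
  refine section_mono x _ hT hG hd (fun i => ?_) hs
  ext1 p
  obtain ⟨a, g⟩ := p
  rw [sg_pow, hd, one_mul]
  simp

/-- the number of orbits -/
theorem card_om [Finite T] (x : Fin m → T) :
    Nat.card (Om x) = ∑ i, Nat.card T / orderOf (x i) := by
  classical
  rw [Nat.card_sigma]
  refine Finset.sum_congr rfl fun i _ => ?_
  have h1 : Nat.card (Quotient (QuotientGroup.rightRel (Subgroup.zpowers (x i)))) =
      (Subgroup.zpowers (x i)).index := by
    unfold Subgroup.index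
    exact Nat.card_congr (QuotientGroup.quotientRightRelEquivQuotientLeftRel _)
  rw [h1]
  have h2 := Subgroup.card_mul_index (Subgroup.zpowers (x i))
  rw [Nat.card_zpowers] at h2
  rw [← h2, Nat.mul_div_cancel_left _ (orderOf_pos _)]

end orb

end Pool.Agent.Q133.MU
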