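import Pool.Agent.Q133.MU.Prime

/-!
# Groups of exponent `n` and the normal closures of their `(n / p)`-th powers
-/

set_option autoImplicit false

namespace Pool.Agent.Q133.MU

open Function Set

universe u v

theorem fin_inj {G : Type u} {H : Type v} [Group G] [Group H] (f : G →* H) (hf : Injective f)
    {S : Set G} (h : Finite (Subgroup.closure (f '' S))) : Finite (Subgroup.closure S) := by
  rw [← MonoidHom.map_closure] at h
  exact Finite.of_equiv _ ((Subgroup.closure S).equivMapOfInjective f hf).symm.toEquiv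

/-- finitely many `m`-th powers generate a finite subgroup, in all groups of exponent `p m` -/
def HPow (p m : ℕ) : Prop := ∀ (G : Type u) [Group G], (∀ x : G, x ^ (p * m) = 1) →
  ∀ S : Set G, S.Finite → (∀ x ∈ S, ∃ g : G, x = g ^ m) → Finite (Subgroup.closure S)

/-- finitely many conjugates of an `m`-th power generate a finite subgroup, in all groups of
exponent `p m` -/
def HConj (p m : ℕ) : Prop := ∀ (G : Type u) [Group G], (∀ x : G, x ^ (p * m) = 1) →
  ∀ (g : G) (S : Set G), S.Finite → (∀ x ∈ S, IsConj (g ^ m) x) → Finite (Subgroup.closure S)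

theorem HPow.zero {p m : ℕ} (h : HPow.{v} p m) : HPow.{0} p m := by
  intro G _ hG S hS hp
  let f : G →* ULift.{v} G := (MulEquiv.ulift (α := G)).symm.toMonoidHom
  have hf : Injective f := (MulEquiv.ulift (α := G)).symm.injective
  refine fin_inj f hf (h (ULift.{v} G) ?_ (f '' S) (hS.image _) ?_)
  · intro x
    obtain ⟨y, rfl⟩ := (MulEquiv.ulift (α := G)).symm.surjective x
    rw [← map_pow, hG, map_one]
  · rintro _ ⟨x, hx, rfl⟩
    obtain ⟨g, rfl⟩ := hp x hx
    exact ⟨f g, map_pow f g m⟩

theorem HConj.pow {p m : ℕ} (h : HConj.{v} p m) : HPow.{v} p m := by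
  intro G _ hG S hS hp
  have hN : ∀ g : G, LFS (Subgroup.normalClosure {g ^ m}) := by
    intro g
    unfold Subgroup.normalClosure
    refine lfs_closure fun F hF hFX => h G hG g F hF fun x hx => ?_
    obtain ⟨y, hy, hxy⟩ := Group.mem_conjugatesOfSet_iff.1 (hFX hx)
    rw [Set.mem_singleton_iff] at hy
    rw [← hy]
    exact hxy
  have key : ∀ S : Set G, S.Finite → (∀ x ∈ S, ∃ g : G, x = g ^ m) →
      ∃ N : Subgroup G, N.Normal ∧ LFS N ∧ S ⊆ N := by
    intro S hS
    induction S, hS using Set.Finite.induction_on with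
    | empty =>
      intro _
      refine ⟨⊥, inferInstance, ?_, Set.empty_subset _⟩
      intro F hF hFX
      have : Subgroup.closure F ≤ ⊥ := (Subgroup.closure_le _).2 hFX
      rw [le_bot_iff.1 this]
      infer_instance
    | insert _ _ ih =>
      rename_i a S _ _
      intro hp
      obtain ⟨N, hNn, hNl, hSN⟩ := ih fun x hx => hp x (Set.mem_insert_of_mem _ hx)
      obtain ⟨g, hg⟩ := hp a (Set.mem_insert _ _)
      refine ⟨N ⊔ Subgroup.normalClosure {g ^ m}, inferInstance, lfs_sup hNl (hN g), ?_⟩
      rintro x (rfl | hx)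
      · rw [hg]
        exact (le_sup_right : _ ≤ N ⊔ Subgroup.normalClosure {g ^ m})
          (Subgroup.subset_normalClosure (Set.mem_singleton _))
      · exact (le_sup_left : N ≤ _) (hSN hx)
  obtain ⟨N, -, hN, hSN⟩ := key S hS hp
  exact hN S hS hSN

/-- **Lowering the exponent** by a wreath product with a cyclic group of order `p`. -/
theorem HPow.step {p m : ℕ} (hp : 0 < p) (h : HPow.{v} p (p * m)) : HPow.{v} p m := by
  intro K _ hK S hS hpow
  classical
  have : NeZero p := ⟨hp.ne'⟩
  obtain ⟨r, f, hf⟩ : ∃ (r : ℕ) (f : Fin r → K), S = Set.range fun i => f i ^ m := by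
    have : Finite S := hS
    choose g hg using fun x : S => hpow x.1 x.2
    obtain ⟨r, ⟨e⟩⟩ := Finite.exists_equiv_fin S
    refine ⟨r, fun i => g (e.symm i), ?_⟩
    ext x
    constructor
    · intro hx
      exact ⟨e ⟨x, hx⟩, by simp only [Equiv.symm_apply_apply]; exact (hg ⟨x, hx⟩).symm⟩
    · rintro ⟨i, rfl⟩
      simp only
      rw [← hg]
      exact (e.symm i).2
  let T := Multiplicative (ZMod p)
  let x : Fin r → T := fun _ => Multiplicative.ofAdd 1
  let c : Fin r → T → K := fun i a => if a = 1 then f i else 1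
  have hT : ∀ a : T, a ^ p = 1 := by
    intro a
    obtain ⟨b, rfl⟩ := Multiplicative.ofAdd.surjective a
    rw [← ofAdd_nsmul]
    have : p • b = 0 := by simp
    rw [this]
    rfl
  let G := (sg x c).range
  have hG : ∀ g : G, g ^ (p * (p * m)) = 1 := by
    rintro ⟨_, w, rfl⟩
    refine Subtype.ext ?_
    show (sg x c w) ^ (p * (p * m)) = 1
    rw [← map_pow]
    exact (mono_sg x c).pow hT hK w
  -- the powers of the generators
  have hpw : ∀ (i : Fin r) (k : ℕ), k ≤ p → ∀ (j : ℕ) (b : K), j ≤ p → 
      sg x c (FreeGroup.of i ^ k) (Multiplicative.ofAdd (j : ZMod p), b) =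
        (Multiplicative.ofAdd ((j + k : ℕ) : ZMod p),
          (if (1 ≤ k ∧ j = 0) ∨ (j < p ∧ p < j + k) ∨ (j = p ∧ 1 ≤ k) then f i else 1) * b) := by
    intro i k
    induction k with
    | zero =>
      intro _ j b hj
      have h1 : ¬ ((1 ≤ 0 ∧ j = 0) ∨ (j < p ∧ p < j + 0) ∨ (j = p ∧ 1 ≤ 0)) := by omega
      rw [if_neg h1]
      simp
    | succ k ih =>
      intro hk j b hj
      rw [pow_succ', map_mul, Equiv.Perm.mul_apply, ih (by omega) j b hj, sg_of]
      have h2 : x i * Multiplicative.ofAdd ((j + k : ℕ) : ZMod p) =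
          Multiplicative.ofAdd ((j + (k + 1) : ℕ) : ZMod p) := by
        show Multiplicative.ofAdd (1 : ZMod p) * _ = _
        rw [← ofAdd_add]
        congr 1
        push_cast
        ring
      have h3 : (Multiplicative.ofAdd ((j + k : ℕ) : ZMod p) : T) = 1 ↔ p ∣ j + k := by
        rw [← ofAdd_zero, Multiplicative.ofAdd.injective.eq_iff, ZMod.natCast_eq_zero_iff]
      refine Prod.ext h2 ?_
      show (if Multiplicative.ofAdd ((j + k : ℕ) : ZMod p) = (1 : T) then f i else 1) * _ = _
      by_cases hd : p ∣ j + k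
      · rw [if_pos (h3.2 hd)]
        have hjk : j + k = 0 ∨ j + k = p := by
          obtain ⟨q, hq⟩ := hd
          rcases q with _ | _ | q
          · left; simpa using hq
          · right; simpa using hq
          · right
            have h5 : j + k < p * 2 := by omega
            rw [hq] at h5
            have : q + 1 + 1 < 2 := Nat.lt_of_mul_lt_mul_left h5
            omega
        rcases hjk with h0 | h0
        · have h4 : ¬ ((1 ≤ k ∧ j = 0) ∨ (j < p ∧ p < j + k) ∨ (j = p ∧ 1 ≤ k)) := by omega
          have h5 : (1 ≤ k + 1 ∧ j = 0) ∨ (j < p ∧ p < j + (k + 1)) ∨ (j = p ∧ 1 ≤ k + 1) := by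
            omega
          rw [if_neg h4, if_pos h5, one_mul]
        · by_cases hj0 : j = 0
          · omega
          · have h4 : ¬ ((1 ≤ k ∧ j = 0) ∨ (j < p ∧ p < j + k) ∨ (j = p ∧ 1 ≤ k)) := by omega
            have h5 : (1 ≤ k + 1 ∧ j = 0) ∨ (j < p ∧ p < j + (k + 1)) ∨ (j = p ∧ 1 ≤ k + 1) := by
              omega
            rw [if_neg h4, if_pos h5, one_mul]
      · rw [if_neg (fun h => hd (h3.1 h)), one_mul]
        have h6 : ((1 ≤ k ∧ j = 0) ∨ (j < p ∧ p < j + k) ∨ (j = p ∧ 1 ≤ k)) ↔
            ((1 ≤ k + 1 ∧ j = 0) ∨ (j < p ∧ p < j + (k + 1)) ∨ (j = p ∧ 1 ≤ k + 1)) := by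
          have h7 : j + k ≠ 0 := by rintro h; rw [h] at hd; exact hd (dvd_zero _)
          have h8 : j + k ≠ p := by rintro h; rw [h] at hd; exact hd dvd_rfl
          have h9 : ¬ (j = p ∧ k = 0) := by rintro ⟨rfl, rfl⟩; exact h8 rfl
          omega
        by_cases h7 : (1 ≤ k ∧ j = 0) ∨ (j < p ∧ p < j + k) ∨ (j = p ∧ 1 ≤ k)
        · rw [if_pos h7, if_pos (h6.1 h7)]
        · rw [if_neg h7, if_neg (fun h => h7 (h6.2 h))]
  have hpp : ∀ (i : Fin r) (a : T) (b : K), sg x c (FreeGroup.of i ^ p) (a, b) = (a, f i * b) := by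
    intro i a b
    obtain ⟨a, rfl⟩ := Multiplicative.ofAdd.surjective a
    have h1 : a = (a.val : ZMod p) := by simp
    have h2 : a.val < p := ZMod.val_lt a
    have h3 := hpw i p le_rfl a.val b h2.le
    rw [← h1] at h3
    rw [h3]
    have h4 : (1 ≤ p ∧ a.val = 0) ∨ (a.val < p ∧ p < a.val + p) ∨ (a.val = p ∧ 1 ≤ p) := by omega
    rw [if_pos h4]
    refine Prod.ext ?_ rfl
    show Multiplicative.ofAdd _ = Multiplicative.ofAdd _
    congr 1
    push_cast
    simp
  have hpm : ∀ (i : Fin r) (k : ℕ) (a : T) (b : K),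
      sg x c ((FreeGroup.of i ^ p) ^ k) (a, b) = (a, f i ^ k * b) := by
    intro i k
    induction k with
    | zero => intro a b; simp
    | succ k ih =>
      intro a b
      rw [pow_succ, map_mul, Equiv.Perm.mul_apply, hpp, ih, pow_succ, mul_assoc]
  -- left multiplications
  let L : K →* Equiv.Perm (T × K) :=
    { toFun := fun k => ⟨fun q => (q.1, k * q.2), fun q => (q.1, k⁻¹ * q.2),
        fun q => by simp, fun q => by simp⟩
      map_one' := by ext q <;> simp
      map_mul' := fun k l => by ext q <;> simp [mul_assoc] }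
  have hL : Injective L := by
    intro k l hkl
    have := congrArg (fun e : Equiv.Perm (T × K) => (e (1, 1)).2) hkl
    simpa [L] using this
  refine fin_inj L hL ?_
  let y : Fin r → G := fun i => ⟨sg x c (FreeGroup.of i), ⟨_, rfl⟩⟩
  have h1 : Finite (Subgroup.closure (Set.range fun i => y i ^ (p * m))) := by
    refine h G hG _ (Set.finite_range _) ?_
    rintro _ ⟨i, rfl⟩
    exact ⟨y i, rfl⟩
  have h2 : L '' S = G.subtype '' (Set.range fun i => y i ^ (p * m)) := by
    rw [hf, ← Set.range_comp, ← Set.range_comp]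
    congr 1
    funext i
    refine Equiv.ext fun q => ?_
    obtain ⟨a, b⟩ := q
    show (a, f i ^ m * b) = (sg x c (FreeGroup.of i) ^ (p * m)) (a, b)
    rw [← map_pow, pow_mul, hpm]
  rw [h2, ← MonoidHom.map_closure]
  exact Finite.of_surjective _ (G.subtype.subgroupMap_surjective _)

/-- **Powers decide.** -/
theorem lf_of_hpow {p : ℕ} (hp : p.Prime) (m : ℕ) (hm : 1 ≤ m) (h : HPow.{0} p m) :
    ∀ (G : Type) [Group G], (∀ x : G, x ^ (p * m) = 1) → ∀ S : Set G, S.Finite →
      Finite (Subgroup.closure S) := by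
  induction m using Nat.strong_induction_on with
  | _ m ih =>
  have hB : ∀ r, Finite (B r m) := by
    by_cases hpm : p ∣ m
    · obtain ⟨m, rfl⟩ := hpm
      have h1 : m < p * m := by nlinarith [hp.two_le, Nat.pos_of_mul_pos_left hm]
      have hm1 : 1 ≤ m := by
        rcases Nat.eq_zero_or_pos m with rfl | h
        · simp at hm
        · exact h
      have h2 := ih m h1 hm1 (h.step hp.pos)
      intro r
      have h3 := h2 (B r (p * m)) (B_exp r (p * m))
        (Set.range fun i : Fin r => (QuotientGroup.mk (FreeGroup.of i) : B r (p * m)))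
        (Set.finite_range _)
      rw [B_gen] at h3
      exact Finite.of_equiv _ (Subgroup.topEquiv (G := B r (p * m))).toEquiv
    · -- all elements of order `p` are `m`-th powers
      have hc : Nat.Coprime m p := ((Nat.Prime.coprime_iff_not_dvd hp).2 hpm).symm
      obtain ⟨k, -, hk⟩ := Nat.exists_mul_mod_eq_one_of_coprime hc hp.one_lt
      have hpow : ∀ (G : Type) [Group G] (x : G), x ^ p = 1 → ∃ g : G, x = g ^ m := by
        intro G _ x hx
        refine ⟨x ^ k, ?_⟩
        rw [← pow_mul, mul_comm k m, ← Nat.mod_add_div (m * k) p, hk, pow_add, pow_mul, hx,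
          one_pow, pow_one, mul_one]
      have hPP : ∀ s, Finite (PP s (p * m) fun _ => p) := by
        intro s
        have hexp : ∀ x : PP s (p * m) (fun _ => p), x ^ (p * m) = 1 := by
          intro x
          obtain ⟨w, rfl⟩ := QuotientGroup.mk_surjective x
          rw [← QuotientGroup.mk_pow, QuotientGroup.eq_one_iff]
          exact Subgroup.subset_normalClosure (Or.inl ⟨w, rfl⟩)
        have h3 := h (PP s (p * m) fun _ => p) hexp
          (Set.range fun i : Fin s => (QuotientGroup.mk (FreeGroup.of i) : PP s (p * m) fun _ => p))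
          (Set.finite_range _) (by
            rintro _ ⟨i, rfl⟩
            refine hpow _ _ ?_
            rw [← QuotientGroup.mk_pow, QuotientGroup.eq_one_iff]
            exact Subgroup.subset_normalClosure (Or.inr ⟨i, rfl⟩))
        have hgen : Subgroup.closure (Set.range fun i : Fin s =>
            (QuotientGroup.mk (FreeGroup.of i) : PP s (p * m) fun _ => p)) = ⊤ := by
          rw [eq_top_iff]
          rintro x -
          obtain ⟨w, rfl⟩ := QuotientGroup.mk_surjective x
          induction w using FreeGroup.induction_on with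
          | C1 => exact one_mem _
          | of i => exact Subgroup.subset_closure ⟨i, rfl⟩
          | inv_of i hi => exact inv_mem hi
          | mul a b ha hb => exact mul_mem ha hb
        rw [hgen] at h3
        exact Finite.of_equiv _ (Subgroup.topEquiv (G := PP s (p * m) fun _ => p)).toEquiv
      intro r
      have := hPP (r + 4)
      obtain ⟨K, φ, hφ⟩ := elem_section (d := p) (s := r + 4) (n := m) (r := r) hp.two_le
        (enough hp.two_le r)
      exact Finite.of_surjective φ hφ
  intro G _ hG S hS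
  -- the verbal subgroup
  let V : Subgroup G := Subgroup.closure {x | ∃ g : G, x = g ^ m}
  have hV : V.Normal := by
    refine ⟨fun n hn g => ?_⟩
    induction hn using Subgroup.closure_induction with
    | mem x hx =>
      obtain ⟨y, rfl⟩ := hx
      refine Subgroup.subset_closure ⟨g * y * g⁻¹, ?_⟩
      rw [conj_pow]
    | one => simp
    | mul x y _ _ hx hy =>
      have : g * (x * y) * g⁻¹ = (g * x * g⁻¹) * (g * y * g⁻¹) := by group
      rw [this]
      exact mul_mem hx hy
    | inv x _ hx =>
      have : g * x⁻¹ * g⁻¹ = (g * x * g⁻¹)⁻¹ := by group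
      rw [this]
      exact inv_mem hx
  refine fin_ext (QuotientGroup.mk' V) ?_ hS ?_
  · rw [QuotientGroup.ker_mk']
    exact lfs_closure fun F hF hFX => h G hG F hF hFX
  · refine finite_closure (n := m) hB (G ⧸ V) ?_ _ (hS.image _)
    intro x
    obtain ⟨g, rfl⟩ := QuotientGroup.mk_surjective x
    rw [← QuotientGroup.mk_pow, QuotientGroup.eq_one_iff]
    exact Subgroup.subset_closure ⟨g, rfl⟩

end Pool.Agent.Q133.MU
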