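import Pool.Agent.Q133.MU.Ex

/-!
# Groups of exponent `n` generated by elements with trivial `d`-th power
-/

set_option autoImplicit false

namespace Pool.Agent.Q133.MU

open Function Set

universe u v

section lf

variable {G : Type u} [Group G]

/-- the subgroup `N` is locally finite -/
def LFS (N : Subgroup G) : Prop := ∀ S : Set G, S.Finite → S ⊆ N → Finite (Subgroup.closure S)

/-- elements of `closure X` lie in `closure F`, `F ⊆ X` finite -/
theorem exists_fin {X : Set G} {g : G} (hg : g ∈ Subgroup.closure X) :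
    ∃ F : Set G, F.Finite ∧ F ⊆ X ∧ g ∈ Subgroup.closure F := by
  induction hg using Subgroup.closure_induction with
  | mem g hg => exact ⟨{g}, Set.finite_singleton g, by simpa using hg,
      Subgroup.subset_closure rfl⟩
  | one => exact ⟨∅, Set.finite_empty, Set.empty_subset _, one_mem _⟩
  | mul g h _ _ hg hh =>
    obtain ⟨F, h1, h2, h3⟩ := hg
    obtain ⟨F', h1', h2', h3'⟩ := hh
    exact ⟨F ∪ F', h1.union h1', Set.union_subset h2 h2',
      mul_mem (Subgroup.closure_mono Set.subset_union_left h3)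
        (Subgroup.closure_mono Set.subset_union_right h3')⟩
  | inv g _ hg =>
    obtain ⟨F, h1, h2, h3⟩ := hg
    exact ⟨F, h1, h2, inv_mem h3⟩

theorem exists_fin_set {X S : Set G} (hS : S.Finite) (h : S ⊆ Subgroup.closure X) :
    ∃ F : Set G, F.Finite ∧ F ⊆ X ∧ S ⊆ Subgroup.closure F := by
  choose F h1 h2 h3 using fun s : S => exists_fin (h s.2)
  have : Finite S := hS
  refine ⟨⋃ s, F s, Set.finite_iUnion h1, Set.iUnion_subset h2, fun s hs => ?_⟩
  exact Subgroup.closure_mono (Set.subset_iUnion F ⟨s, hs⟩) (h3 ⟨s, hs⟩)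

theorem lfs_closure {X : Set G} (h : ∀ F : Set G, F.Finite → F ⊆ X → Finite (Subgroup.closure F)) :
    LFS (Subgroup.closure X) := by
  intro S hS hSX
  obtain ⟨F, h1, h2, h3⟩ := exists_fin_set hS hSX
  have := h F h1 h2
  exact Finite.Set.subset (Subgroup.closure F : Set G) ((Subgroup.closure_le _).2 h3)

/-- extensions -/
theorem fin_ext {H : Type v} [Group H] (f : G →* H) (hk : LFS f.ker) {S : Set G} (hS : S.Finite)
    (h : Finite (Subgroup.closure (f '' S))) : Finite (Subgroup.closure S) := by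
  let C := Subgroup.closure S
  have hfg : C.FG := Subgroup.fg_iff _ |>.2 ⟨S, rfl, hS⟩
  have hC : Group.FG C := (Group.fg_iff_subgroup_fg C).2 hfg
  let φ : C →* H := f.comp C.subtype
  have hr : (φ.range : Set H) ⊆ Subgroup.closure (f '' S) := by
    rintro _ ⟨x, rfl⟩
    rw [← MonoidHom.map_closure]
    exact ⟨x.1, x.2, rfl⟩
  have hrf : Finite φ.range := Finite.Set.subset _ hr
  have hidx : φ.ker.FiniteIndex := by
    refine ⟨?_⟩
    rw [Subgroup.index_ker]
    exact Nat.card_pos.ne'
  have hkfg : Group.FG φ.ker := inferInstance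
  obtain ⟨K, hK, hKf⟩ := (Subgroup.fg_iff _).1 ((Group.fg_iff_subgroup_fg _).1 hkfg)
  have h1 : Finite (Subgroup.closure (C.subtype '' K)) := by
    refine hk _ (hKf.image _) ?_
    rintro _ ⟨x, hx, rfl⟩
    have : x ∈ φ.ker := by rw [← hK]; exact Subgroup.subset_closure hx
    exact this
  have h2 : Finite φ.ker := by
    rw [← hK]
    rw [← MonoidHom.map_closure] at h1
    exact Finite.of_equiv _ ((Subgroup.closure K).equivMapOfInjective C.subtype
      C.subtype_injective).symm.toEquiv
  have h3 : Finite C := by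
    have e : Nat.card C ≠ 0 := by
      rw [← Subgroup.card_mul_index φ.ker]
      exact Nat.mul_ne_zero Nat.card_pos.ne' hidx.index_ne_zero
    exact Nat.finite_of_card_ne_zero e
  exact h3

theorem lfs_sup {N M : Subgroup G} [N.Normal] (hN : LFS N) (hM : LFS M) : LFS (N ⊔ M) := by
  intro S hS hSM
  refine fin_ext (QuotientGroup.mk' N) (by rw [QuotientGroup.ker_mk']; exact hN) hS ?_
  have hex : ∀ s : S, ∃ y ∈ M, (QuotientGroup.mk' N) s.1 = QuotientGroup.mk' N y := by
    intro s
    have hs : s.1 ∈ ((M ⊔ N : Subgroup G) : Set G) := by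
      rw [sup_comm]
      exact hSM s.2
    rw [Subgroup.mul_normal] at hs
    obtain ⟨y, hy, z, hz, he⟩ := Set.mem_mul.1 hs
    refine ⟨y, hy, ?_⟩
    rw [← he, map_mul]
    have : QuotientGroup.mk' N z = 1 := (QuotientGroup.eq_one_iff z).2 hz
    rw [this, mul_one]
  choose y hy hye using hex
  have : Finite S := hS
  have h1 := hM (Set.range y) (Set.finite_range y) (by rintro _ ⟨s, rfl⟩; exact hy s)
  have h2 : QuotientGroup.mk' N '' S = QuotientGroup.mk' N '' Set.range y := by
    ext g
    constructor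
    · rintro ⟨s, hs, rfl⟩
      exact ⟨y ⟨s, hs⟩, ⟨_, rfl⟩, (hye ⟨s, hs⟩).symm⟩
    · rintro ⟨_, ⟨s, rfl⟩, rfl⟩
      exact ⟨s.1, s.2, hye s⟩
  rw [h2, ← MonoidHom.map_closure]
  have : Finite (((QuotientGroup.mk' N) '' (Subgroup.closure (Set.range y) : Set G) :
    Set (G ⧸ N))) := Set.Finite.image _ (Set.toFinite _)
  exact this

end lf

/-! ### elementary groups -/

/-- the elementary group of order `d ^ s` -/
abbrev EE (d s : ℕ) : Type := Multiplicative (Fin s → ZMod d)

/-- its generators -/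
def xe (d s : ℕ) (i : Fin s) : EE d s := Multiplicative.ofAdd (Pi.single i 1)

theorem xe_gen (d s : ℕ) [NeZero d] : Subgroup.closure (Set.range (xe d s)) = ⊤ := by
  rw [eq_top_iff]
  rintro a -
  obtain ⟨b, rfl⟩ := Multiplicative.ofAdd.surjective a
  have h : (Multiplicative.ofAdd b : EE d s) = ∏ i, xe d s i ^ (b i).val := by
    have h1 : b = ∑ i, (b i).val • (Pi.single i 1 : Fin s → ZMod d) := by
      ext j
      rw [Finset.sum_apply, Finset.sum_eq_single j]
      · simp
      · intro i _ hij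
        simp [hij.symm]
      · simp
    conv_lhs => rw [h1]
    rw [ofAdd_sum]
    rfl
  rw [h]
  exact prod_mem fun i _ => pow_mem (Subgroup.subset_closure (Set.mem_range_self i)) _

theorem ee_exp (d s : ℕ) (a : EE d s) : a ^ d = 1 := by
  obtain ⟨b, rfl⟩ := Multiplicative.ofAdd.surjective a
  rw [← ofAdd_nsmul]
  have : d • b = 0 := by
    ext i
    simp
  rw [this]
  rfl

theorem card_ee (d s : ℕ) : Nat.card (EE d s) = d ^ s := by
  have : Nat.card (EE d s) = Nat.card (Fin s → ZMod d) := Nat.card_congr Multiplicative.toAdd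
  rw [this, Nat.card_fun, Nat.card_zmod, Nat.card_fin]

theorem order_xe (d s : ℕ) (i : Fin s) : orderOf (xe d s i) = d := by
  refine Nat.dvd_antisymm (orderOf_dvd_of_pow_eq_one (ee_exp d s _)) ?_
  have h : xe d s i ^ orderOf (xe d s i) = 1 := pow_orderOf_eq_one _
  generalize orderOf (xe d s i) = k at h
  unfold xe at h
  rw [← ofAdd_nsmul, ← ofAdd_zero, Multiplicative.ofAdd.injective.eq_iff] at h
  have h2 := congrFun h i
  simp only [Pi.smul_apply, Pi.single_eq_same, nsmul_eq_mul, mul_one, Pi.zero_apply] at h2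
  exact (ZMod.natCast_eq_zero_iff _ _).1 h2

theorem elem_section {d s n r : ℕ} (hd : 2 ≤ d)
    (hr : r + d ^ s + s * d ^ (s - 1) ≤ 1 + s * d ^ s) :
    ∃ (K : Subgroup (PP s (d * n) fun _ => d)) (φ : K →* B r n), Surjective φ := by
  have : NeZero d := ⟨by omega⟩
  refine fin_orb (xe d s) (xe_gen d s) (ee_exp d s) (fun i => ee_exp d s _) ?_
  simp only [order_xe, card_ee, Finset.sum_const, Finset.card_univ, Fintype.card_fin]
  have h1 : s * (d ^ s / d) ≤ s * d ^ (s - 1) := by
    rcases Nat.eq_zero_or_pos s with rfl | hs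
    · simp
    · obtain ⟨k, rfl⟩ : ∃ k, s = k + 1 := ⟨s - 1, by omega⟩
      rw [pow_succ, Nat.mul_div_cancel _ (by omega)]
      simp
  rw [smul_eq_mul]
  omega

/-- enough generators -/
theorem enough {d : ℕ} (hd : 2 ≤ d) (r : ℕ) :
    r + d ^ (r + 4) + (r + 4) * d ^ (r + 4 - 1) ≤ 1 + (r + 4) * d ^ (r + 4) := by
  have h1 : r + 4 - 1 = r + 3 := rfl
  rw [h1, pow_succ d (r + 3)]
  have h2 : r + 1 ≤ d ^ (r + 3) := by
    calc r + 1 ≤ 2 ^ (r + 3) := by
          have := Nat.lt_two_pow_self (n := r + 3)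
          omega
      _ ≤ d ^ (r + 3) := Nat.pow_le_pow_left hd _
  generalize d ^ (r + 3) = D at h2 ⊢
  nlinarith [Nat.mul_le_mul_left ((r + 3) * D) hd, Nat.mul_le_mul_left D hd]

/-- all groups generated by finitely many elements with trivial `d`-th power -/
theorem fin_of_pp {n d : ℕ} (h : ∀ s, Finite (PP s n fun _ => d)) {G : Type u} [Group G]
    (hG : ∀ x : G, x ^ n = 1) {S : Set G} (hS : S.Finite) (hSd : ∀ x ∈ S, x ^ d = 1) :
    Finite (Subgroup.closure S) := by
  obtain ⟨m, f, hf⟩ : ∃ (m : ℕ) (f : Fin m → G), Set.range f = S := by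
    have : Finite S := hS
    obtain ⟨m, ⟨e⟩⟩ := Finite.exists_equiv_fin S
    refine ⟨m, fun i => (e.symm i).1, ?_⟩
    ext x
    constructor
    · rintro ⟨i, rfl⟩
      exact (e.symm i).2
    · intro hx
      exact ⟨e ⟨x, hx⟩, by simp⟩
  have hker : Subgroup.normalClosure ((Set.range fun w : FreeGroup (Fin m) => w ^ n) ∪
      Set.range fun i : Fin m => FreeGroup.of i ^ d) ≤ (FreeGroup.lift f).ker := by
    refine Subgroup.normalClosure_le_normal ?_
    rintro _ (⟨w, rfl⟩ | ⟨i, rfl⟩)
    · show FreeGroup.lift f (w ^ n) = 1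
      rw [map_pow, hG]
    · show FreeGroup.lift f (FreeGroup.of i ^ d) = 1
      rw [map_pow, FreeGroup.lift_apply_of]
      exact hSd _ (by rw [← hf]; exact ⟨i, rfl⟩)
  let φ : PP m n (fun _ => d) →* G := QuotientGroup.lift _ (FreeGroup.lift f) hker
  have hfin := h m
  have hr : Subgroup.closure S ≤ φ.range := by
    rw [← hf, Subgroup.closure_le]
    rintro _ ⟨i, rfl⟩
    refine ⟨QuotientGroup.mk (FreeGroup.of i), ?_⟩
    show FreeGroup.lift f (FreeGroup.of i) = f i
    rw [FreeGroup.lift_apply_of]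
  have h2 : Finite φ.range := Finite.of_surjective φ.rangeRestrict φ.rangeRestrict_surjective
  exact Finite.Set.subset (φ.range : Set G) hr

/-- the subgroup generated by the elements with trivial `d`-th power -/
def II (G : Type u) [Group G] (d : ℕ) : Subgroup G := Subgroup.closure {x | x ^ d = 1}

instance (G : Type u) [Group G] (d : ℕ) : (II G d).Normal := by
  refine ⟨fun n hn g => ?_⟩
  unfold II at hn ⊢
  induction hn using Subgroup.closure_induction with
  | mem x hx =>
    refine Subgroup.subset_closure ?_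
    show (g * x * g⁻¹) ^ d = 1
    rw [conj_pow]
    have : x ^ d = 1 := hx
    rw [this]
    simp
  | one => simp
  | mul x y _ _ hx hy =>
    have : g * (x * y) * g⁻¹ = (g * x * g⁻¹) * (g * y * g⁻¹) := by group
    rw [this]
    exact mul_mem hx hy
  | inv x _ hx =>
    have : g * x⁻¹ * g⁻¹ = (g * x * g⁻¹)⁻¹ := by group
    rw [this]
    exact inv_mem hx

/-- **Main step.** -/
theorem lf_of_pp {m d : ℕ} (hd : 2 ≤ d) (h : ∀ s, Finite (PP s (d * m) fun _ => d)) {G : Type u}
    [Group G] (hG : ∀ x : G, x ^ (d * m) = 1) (S : Set G) (hS : S.Finite) :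
    Finite (Subgroup.closure S) := by
  refine fin_ext (QuotientGroup.mk' (II G d)) ?_ hS ?_
  · rw [QuotientGroup.ker_mk']
    exact lfs_closure fun F hF hFX => fin_of_pp h hG hF fun x hx => hFX hx
  · refine finite_closure (n := m) (fun r => ?_) (G ⧸ II G d) ?_ _ (hS.image _)
    · have := h (r + 4)
      obtain ⟨K, φ, hφ⟩ := elem_section (d := d) (s := r + 4) (n := m) (r := r) hd (enough hd r)
      exact Finite.of_surjective φ hφ
    · intro x
      obtain ⟨g, rfl⟩ := QuotientGroup.mk_surjective x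
      rw [← QuotientGroup.mk_pow, QuotientGroup.eq_one_iff]
      refine Subgroup.subset_closure ?_
      show (g ^ m) ^ d = 1
      rw [← pow_mul, mul_comm, hG]

end Pool.Agent.Q133.MU
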