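import Mathlib

/-!
# Free Burnside groups of exponents `n` and `t n`

`B r n` is a quotient of a subgroup of `B m (t * n)`, if `r ≤ 1 + (m - 1) |T|` for some finite group
`T` of exponent dividing `t` generated by `m` elements.
-/

set_option autoImplicit false

namespace Pool.Agent.Q133.MU

open Function Set

universe u v w

section mono

variable {F : Type*} [Group F] {T : Type*} [Group T] {G : Type*} [Group G]

/-- monomial actions of `F` on `T × G` -/
def Mono (π : F →* T) (σ : F →* Equiv.Perm (T × G)) : Prop :=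
  ∀ (w : F) (a : T) (g : G), σ w (a, g) = (π w * a, (σ w (a, 1)).2 * g)

theorem Mono.fst {π : F →* T} {σ : F →* Equiv.Perm (T × G)} (h : Mono π σ) (w : F) (a : T) (g : G) :
    (σ w (a, g)).1 = π w * a := by rw [h]

theorem Mono.snd {π : F →* T} {σ : F →* Equiv.Perm (T × G)} (h : Mono π σ) (w : F) (a : T) (g : G) :
    (σ w (a, g)).2 = (σ w (a, 1)).2 * g := by rw [h]

/-- the stabiliser of the block over `1` acts on it by left multiplications -/
def phi {π : F →* T} {σ : F →* Equiv.Perm (T × G)} (h : Mono π σ) : π.ker →* G where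
  toFun w := (σ w.1 (1, 1)).2
  map_one' := by simp
  map_mul' a b := by
    have hb : σ b.1 (1, 1) = (1, (σ b.1 (1, 1)).2) := by
      refine Prod.ext ?_ rfl
      rw [h.fst, MonoidHom.mem_ker.1 b.2, one_mul]
    show (σ (a.1 * b.1) (1, 1)).2 = _
    rw [map_mul, Equiv.Perm.mul_apply, hb, h.snd]

theorem Mono.pow {π : F →* T} {σ : F →* Equiv.Perm (T × G)} (h : Mono π σ) {t n : ℕ}
    (hT : ∀ a : T, a ^ t = 1) (hG : ∀ g : G, g ^ n = 1) (w : F) : σ (w ^ (t * n)) = 1 := by
  have h1 : ∀ (a : T) (g : G), σ (w ^ t) (a, g) = (a, (σ (w ^ t) (a, 1)).2 * g) := by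
    intro a g
    rw [h, map_pow, hT, one_mul, map_pow]
  have h2 : ∀ (k : ℕ) (a : T) (g : G), σ ((w ^ t) ^ k) (a, g) =
      (a, (σ (w ^ t) (a, 1)).2 ^ k * g) := by
    intro k
    induction k with
    | zero => intro a g; simp
    | succ k ih =>
      intro a g
      rw [pow_succ, map_mul, Equiv.Perm.mul_apply, h1, ih, pow_succ, mul_assoc]
  ext1 p
  obtain ⟨a, g⟩ := p
  rw [pow_mul, h2, hG, one_mul]
  rfl

end mono

section free

variable {m : ℕ} {T : Type*} [Group T] {G : Type*} [Group G]

/-- the action of a generator -/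
def act (x : Fin m → T) (c : Fin m → T → G) (i : Fin m) : Equiv.Perm (T × G) where
  toFun p := (x i * p.1, c i p.1 * p.2)
  invFun p := ((x i)⁻¹ * p.1, (c i ((x i)⁻¹ * p.1))⁻¹ * p.2)
  left_inv p := by ext <;> simp
  right_inv p := by ext <;> simp

/-- the monomial action of the free group with the labels `c` -/
def sg (x : Fin m → T) (c : Fin m → T → G) : FreeGroup (Fin m) →* Equiv.Perm (T × G) :=
  FreeGroup.lift (act x c)

theorem sg_of (x : Fin m → T) (c : Fin m → T → G) (i : Fin m) (p : T × G) :
    sg x c (FreeGroup.of i) p = (x i * p.1, c i p.1 * p.2) := by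
  unfold sg
  rw [FreeGroup.lift_apply_of]
  rfl

theorem mono_sg (x : Fin m → T) (c : Fin m → T → G) : Mono (FreeGroup.lift x) (sg x c) := by
  intro w
  have hinv : ∀ w : FreeGroup (Fin m), (∀ (a : T) (g : G), sg x c w (a, g) =
      (FreeGroup.lift x w * a, (sg x c w (a, 1)).2 * g)) → ∀ (a : T) (g : G), sg x c w⁻¹ (a, g) =
      (FreeGroup.lift x w⁻¹ * a, (sg x c w⁻¹ (a, 1)).2 * g) := by
    intro w h
    have h1 : ∀ (a : T) (g : G), sg x c w⁻¹ (a, g) = ((FreeGroup.lift x w)⁻¹ * a,
        (sg x c w ((FreeGroup.lift x w)⁻¹ * a, 1)).2⁻¹ * g) := by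
      intro a g
      rw [map_inv, Equiv.Perm.inv_eq_iff_eq, h]
      ext <;> simp
    intro a g
    rw [h1 a g, h1 a 1, map_inv]
    ext <;> simp
  induction w using FreeGroup.induction_on with
  | C1 => intro a g; simp
  | of i => 
    intro a g
    rw [sg_of, sg_of, FreeGroup.lift_apply_of]
    simp
  | inv_of i h => exact hinv _ h
  | mul v w hv hw =>
    intro a g
    rw [map_mul, map_mul, Equiv.Perm.mul_apply, Equiv.Perm.mul_apply, hw a g, hw a 1, hv]
    rw [hv (FreeGroup.lift x w * a) ((sg x c w (a, 1)).2 * 1)]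
    ext <;> simp [mul_assoc]

/-- spanning trees of Cayley graphs, and labels which are trivial on them -/
theorem exists_tree [Finite T] (x : Fin m → T) (hx : Subgroup.closure (Set.range x) = ⊤) (k : ℕ)
    (hk : k + 1 ≤ Nat.card T) : ∃ (A : Set T) (E : Set (Fin m × T)), A.ncard = k + 1 ∧
      E.ncard = k ∧ 1 ∈ A ∧ (∀ e ∈ E, x e.1 * e.2 ∈ A) ∧
      ∀ c : Fin m → T → G, (∀ e ∈ E, c e.1 e.2 = 1) → ∀ a ∈ A, ∃ w : FreeGroup (Fin m),
        sg x c w (1, 1) = (a, 1) := by
  induction k with
  | zero =>
    refine ⟨{1}, ∅, by simp, by simp, rfl, by simp, ?_⟩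
    intro c _ a ha
    rw [mem_singleton_iff] at ha
    exact ⟨1, by rw [ha]; simp⟩
  | succ k ih =>
    obtain ⟨A, E, hA, hE, h1, hEA, hc⟩ := ih (by omega)
    have hex : ∃ (i : Fin m) (a : T), a ∈ A ∧ x i * a ∉ A := by
      by_contra hcon
      push Not at hcon
      have hall : ∀ g ∈ Subgroup.closure (Set.range x), ∀ a ∈ A, g * a ∈ A := by
        intro g hg
        induction hg using Subgroup.closure_induction with
        | mem g hg =>
          obtain ⟨i, rfl⟩ := hg
          exact hcon i
        | one => intro a ha; rwa [one_mul]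
        | mul g g' _ _ h h' => intro a ha; rw [mul_assoc]; exact h _ (h' _ ha)
        | inv g _ h =>
          intro a ha
          have hpow : ∀ j : ℕ, ∀ a ∈ A, g ^ j * a ∈ A := by
            intro j
            induction j with
            | zero => intro a ha; simpa using ha
            | succ j ih => intro a ha; rw [pow_succ, mul_assoc]; exact ih _ (h _ ha)
          have he : g⁻¹ = g ^ (orderOf g - 1) := by
            have hpos : 0 < orderOf g := orderOf_pos g
            rw [inv_eq_iff_mul_eq_one, ← pow_succ', Nat.sub_add_cancel hpos, pow_orderOf_eq_one]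
          rw [he]
          exact hpow _ a ha
      have hAu : A = univ := by
        ext a
        refine ⟨fun _ => mem_univ _, fun _ => ?_⟩
        have := hall a (by rw [hx]; exact Subgroup.mem_top _) 1 h1
        rwa [mul_one] at this
      rw [hAu, Set.ncard_univ] at hA
      omega
    obtain ⟨i, a, ha, hia⟩ := hex
    refine ⟨insert (x i * a) A, insert (i, a) E, ?_, ?_, mem_insert_of_mem _ h1, ?_, ?_⟩
    · rw [Set.ncard_insert_of_notMem hia (Set.toFinite _), hA]
    · rw [Set.ncard_insert_of_notMem (fun h => hia (hEA _ h)) (Set.toFinite _), hE]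
    · rintro e (rfl | he)
      · exact mem_insert _ _
      · exact mem_insert_of_mem _ (hEA e he)
    · intro c h a' ha'
      rcases ha' with rfl | ha'
      · obtain ⟨w, hw⟩ := hc c (fun e he => h e (mem_insert_of_mem _ he)) a ha
        refine ⟨FreeGroup.of i * w, ?_⟩
        rw [map_mul, Equiv.Perm.mul_apply, hw, sg_of]
        have := h (i, a) (mem_insert _ _)
        simp only at this
        simp [this]
      · exact hc c (fun e he => h e (mem_insert_of_mem _ he)) a' ha'

/-- the kernel of the free group onto `T` maps onto all groups generated by `1 + (m - 1) |T|`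
elements, by monomial actions -/
theorem exists_mono [Finite T] (x : Fin m → T) (hx : Subgroup.closure (Set.range x) = ⊤) {r : ℕ}
    (hr : r + Nat.card T ≤ 1 + m * Nat.card T) (f : Fin r → G)
    (hf : Subgroup.closure (Set.range f) = ⊤) :
    ∃ c : Fin m → T → G, Surjective (phi (mono_sg x c)) := by
  classical
  have hpos : 0 < Nat.card T := Nat.card_pos
  obtain ⟨A, E, hA, hE, h1, hEA, hc⟩ := exists_tree (G := G) x hx (Nat.card T - 1) (by omega)
  have hAu : A = univ := by
    refine Set.eq_of_subset_of_ncard_le (subset_univ _) ?_ (Set.toFinite _)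
    rw [Set.ncard_univ, hA]
    omega
  have hcard : r ≤ (Eᶜ : Set (Fin m × T)).ncard := by
    have h2 := Set.ncard_add_ncard_compl E
    rw [hE, Nat.card_prod, Nat.card_fin] at h2
    omega
  obtain ⟨S, hS, hSr⟩ := Set.exists_subset_card_eq hcard
  have hSf : Finite S := Set.toFinite _
  have hcS : Nat.card S = r := by rw [Nat.card_coe_set_eq]; exact hSr
  let j : Fin r ≃ S := (Finite.equivFinOfCardEq hcS).symm
  let jj : Fin r → Fin m × T := fun s => (j s).1
  have hj : Injective jj := fun s s' h => j.injective (Subtype.ext h)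
  let c : Fin m → T → G := fun i a => Function.extend jj f 1 (i, a)
  have hcE : ∀ e ∈ E, c e.1 e.2 = 1 := by
    intro e he
    show Function.extend jj f 1 (e.1, e.2) = 1
    rw [Function.extend_apply']
    · rfl
    · rintro ⟨s, hs⟩
      have := hS (j s).2
      apply this
      have h3 : (j s).1 = e := hs
      rw [h3]
      exact he
  refine ⟨c, ?_⟩
  have hrange : ∀ s : Fin r, f s ∈ (phi (mono_sg x c)).range := by
    intro s
    rcases hia : jj s with ⟨i, a⟩
    have hca : c i a = f s := by
      show Function.extend jj f 1 (i, a) = f s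
      rw [← hia, hj.extend_apply]
    obtain ⟨v, hv⟩ := hc c hcE a (by rw [hAu]; exact mem_univ _)
    obtain ⟨w, hw⟩ := hc c hcE (x i * a) (by rw [hAu]; exact mem_univ _)
    have hw' : sg x c w (1, f s) = (x i * a, f s) := by
      have h4 := mono_sg x c w 1 (f s)
      rw [h4]
      have h5 := mono_sg x c w 1 1
      rw [hw] at h5
      have h6 : (FreeGroup.lift x) w * 1 = x i * a := (congrArg Prod.fst h5).symm
      rw [h6, hw]
      simp
    have h7 : sg x c (w⁻¹ * (FreeGroup.of i * v)) (1, 1) = (1, f s) := by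
      rw [map_mul, Equiv.Perm.mul_apply, map_inv, Equiv.Perm.inv_eq_iff_eq, hw', map_mul,
        Equiv.Perm.mul_apply, hv, sg_of, hca]
      simp
    have hk : w⁻¹ * (FreeGroup.of i * v) ∈ (FreeGroup.lift x).ker := by
      rw [MonoidHom.mem_ker]
      have h8 := (mono_sg x c).fst (w⁻¹ * (FreeGroup.of i * v)) 1 1
      rw [h7, mul_one] at h8
      exact h8.symm
    exact ⟨⟨_, hk⟩, by show (sg x c (w⁻¹ * (FreeGroup.of i * v)) (1, 1)).2 = f s; rw [h7]⟩
  rw [← MonoidHom.range_eq_top, ← top_le_iff, ← hf, Subgroup.closure_le]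
  rintro _ ⟨s, rfl⟩
  exact hrange s

/-- the free Burnside group -/
abbrev B (m n : ℕ) : Type :=
  FreeGroup (Fin m) ⧸ Subgroup.normalClosure (Set.range fun w : FreeGroup (Fin m) => w ^ n)

theorem B_exp (m n : ℕ) (x : B m n) : x ^ n = 1 := by
  obtain ⟨w, rfl⟩ := QuotientGroup.mk_surjective x
  rw [← QuotientGroup.mk_pow, QuotientGroup.eq_one_iff]
  exact Subgroup.subset_normalClosure ⟨w, rfl⟩

theorem B_gen (m n : ℕ) :
    Subgroup.closure (Set.range fun i : Fin m => (QuotientGroup.mk (FreeGroup.of i) : B m n)) = ⊤ := by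
  rw [eq_top_iff]
  rintro x -
  obtain ⟨w, rfl⟩ := QuotientGroup.mk_surjective x
  induction w using FreeGroup.induction_on with
  | C1 => exact one_mem _
  | of i => exact Subgroup.subset_closure ⟨i, rfl⟩
  | inv_of i hi => exact inv_mem hi
  | mul a b ha hb => exact mul_mem ha hb

/-- groups of exponent `n` generated by `r` elements are quotients of subgroups of `B m (t n)` -/
theorem section_of [Finite T] {t n r : ℕ} (x : Fin m → T)
    (hx : Subgroup.closure (Set.range x) = ⊤) (hT : ∀ a : T, a ^ t = 1)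
    (hr : r + Nat.card T ≤ 1 + m * Nat.card T) (hG : ∀ g : G, g ^ n = 1) (f : Fin r → G)
    (hf : Subgroup.closure (Set.range f) = ⊤) :
    ∃ (K : Subgroup (B m (t * n))) (φ : K →* G), Surjective φ := by
  obtain ⟨c, hc⟩ := exists_mono x hx hr f hf
  have hm := mono_sg x c
  have hker1 : Subgroup.normalClosure
      (Set.range fun w : FreeGroup (Fin m) => w ^ (t * n)) ≤ (sg x c).ker := by
    refine Subgroup.normalClosure_le_normal ?_
    rintro _ ⟨w, rfl⟩
    exact hm.pow hT hG w
  have hker2 : Subgroup.normalClosure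
      (Set.range fun w : FreeGroup (Fin m) => w ^ (t * n)) ≤ (FreeGroup.lift x).ker := by
    refine Subgroup.normalClosure_le_normal ?_
    rintro _ ⟨w, rfl⟩
    show FreeGroup.lift x (w ^ (t * n)) = 1
    rw [map_pow, pow_mul, hT, one_pow]
  let σ : B m (t * n) →* Equiv.Perm (T × G) := QuotientGroup.lift _ (sg x c) hker1
  let π : B m (t * n) →* T := QuotientGroup.lift _ (FreeGroup.lift x) hker2
  have hmo : Mono π σ := by
    intro w a g
    obtain ⟨w, rfl⟩ := QuotientGroup.mk_surjective w
    exact hm w a g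
  refine ⟨π.ker, phi hmo, fun g => ?_⟩
  obtain ⟨w, hw⟩ := hc g
  exact ⟨⟨QuotientGroup.mk w.1, w.2⟩, hw⟩

theorem finite_of [Finite T] {t n r : ℕ} (x : Fin m → T)
    (hx : Subgroup.closure (Set.range x) = ⊤) (hT : ∀ a : T, a ^ t = 1)
    (hr : r + Nat.card T ≤ 1 + m * Nat.card T) (h : Finite (B m (t * n))) : Finite (B r n) := by
  obtain ⟨K, φ, hφ⟩ := section_of x hx hT hr (B_exp r n) _ (B_gen r n)
  exact Finite.of_surjective φ hφ

theorem solvable_of [Finite T] {t n r : ℕ} (x : Fin m → T)
    (hx : Subgroup.closure (Set.range x) = ⊤) (hT : ∀ a : T, a ^ t = 1)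
    (hr : r + Nat.card T ≤ 1 + m * Nat.card T) (h : Group.IsSolvable (B m (t * n))) :
    Group.IsSolvable (B r n) := by
  obtain ⟨K, φ, hφ⟩ := section_of x hx hT hr (B_exp r n) _ (B_gen r n)
  exact Group.isSolvable_of_surjective hφ

end free

end Pool.Agent.Q133.MU
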